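import Pool.Agent.Lib.MP_0830d8_co.Ex.Final

open Finset Pool.Agent.Lib.MP_0830d8_co.Ex

/-- Every sufficiently large connected graph is antimagic. -/
theorem Pool.Agent.Results.MP_0830d8_co.AllLarge.result :
    ∃ n₀ : ℕ, ∀ n : ℕ, n₀ ≤ n → ∀ (G : SimpleGraph (Fin n)) [DecidableRel G.Adj], G.Connected →
      ∃ f : Sym2 (Fin n) → ℕ, Set.BijOn f G.edgeSet (Set.Icc 1 G.edgeSet.ncard) ∧
        Function.Injective (fun v : Fin n => ∑ w ∈ G.neighborFinset v, f s(v, w)) := by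
  obtain ⟨n0, H⟩ := all_large
  refine ⟨n0, fun n hn G _ hG => ?_⟩
  obtain ⟨f, h1, h2⟩ := H (Fin n) G hG (by rwa [Fintype.card_fin])
  have hc : G.edgeSet.ncard = G.edgeFinset.card := by
    rw [← Set.ncard_coe_finset, SimpleGraph.coe_edgeFinset]
  have hf : ∀ e ∈ G.edgeSet, ((f e).toNat : ℤ) = f e := fun e he =>
    Int.toNat_of_nonneg (h1.mapsTo he).1.le
  refine ⟨fun e => (f e).toNat, ⟨fun e he => ?_, fun e he e' he' h => h1.injOn he he' ?_,
    fun k hk => ?_⟩, fun u v h => h2 ?_⟩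
  · have := h1.mapsTo he
    simp only [Set.mem_Ioc, Set.mem_Icc, hc] at this ⊢
    omega
  · rw [← hf e he, ← hf e' he']
    exact congrArg _ h
  · rw [hc] at hk
    obtain ⟨e, he, hk'⟩ := h1.surjOn (show (k : ℤ) ∈ Set.Ioc 0 (G.edgeFinset.card : ℤ) from
      ⟨by exact_mod_cast hk.1, by exact_mod_cast hk.2⟩)
    exact ⟨e, he, by simp only [hk', Int.toNat_natCast]⟩
  · have key : ∀ v, ∑ e ∈ G.edgeFinset with v ∈ e, f e =
        ((∑ w ∈ G.neighborFinset v, (f s(v, w)).toNat : ℕ) : ℤ) := fun v => by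
      rw [sum_nbr' G (fun e => (f e).toNat), Nat.cast_sum]
      exact sum_congr rfl fun e he =>
        (hf e (SimpleGraph.mem_edgeFinset.mp (mem_filter.mp he).1)).symm
    simp only at h ⊢
    rw [key, key, h]
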